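import Pool.Agent.helper45.TC.Spec
import Pool.Agent.helper45.TC.CVG

set_option autoImplicit false

open Polynomial Finset Pool.Agent.helper27.PC

namespace Pool.Agent.TC

/-- `(c, j)` is determined by the state -/
theorem QAD_inj {t n : ℕ} {c c' : Bool} {g g' : ℕ} (ht : 1 ≤ t) (hg : g < n)
    (h : move t (vac n) (c, g) = move t (vac n) (c', g')) : ((c, g) : Lab) = (c', g') := by
  have h1 : ((c, g) : Lab) ∉ move t (vac n) (c, g) := by
    rw [mem_mv]
    rintro (h1 | ⟨h1, -⟩)
    · have := congrArg Prod.snd h1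
      unfold up at this
      simp only at this
      omega
    · exact h1 rfl
  by_contra h2
  apply h1
  rw [h, mem_mv]
  exact Or.inr ⟨h2, by rw [mem_vac']; exact hg⟩

/-- the terms are monomials -/
theorem QAD_zz {s a : ℕ} (b : ℕ) (hs : 1 ≤ s) (hsa : s ≤ a) (R : St) (l : Lab) :
    ∃ (c : ℤ) (e : ℕ), zz s a b R l = C c * X ^ e := by
  obtain ⟨c, e, h⟩ := CVG_yv b hs hsa (move b R l)
  unfold zz
  rw [h]
  unfold wl
  have h1 : ((-1 : ℤ[X]) ^ cnt R l b) = C ((-1 : ℤ) ^ cnt R l b) := by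
    rw [C_pow, C_neg, C_1]
  rw [h1]
  split_ifs
  · refine ⟨(-1) ^ cnt R l b * c, l.2 + 1 + e, ?_⟩
    rw [C_mul, pow_add X (l.2 + 1) e]
    ring
  · refine ⟨- ((-1) ^ cnt R l b * c), l.2 + e, ?_⟩
    rw [C_neg, C_mul, pow_add X l.2 e]
    ring

theorem QAD_card4 {α : Type} [DecidableEq α] (x y z w : α) (I : Finset α)
    (h : ∀ l ∈ I, l = x ∨ l = y ∨ l = z ∨ l = w) : I.card ≤ 4 := by
  have h1 : I ⊆ {x, y, z, w} := by
    intro l hl
    simp only [mem_insert, mem_singleton]
    exact h l hl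
  exact (card_le_card h1).trans card_le_four

theorem QAD_card3 {α : Type} [DecidableEq α] (x y w : α) (I : Finset α)
    (h : ∀ l ∈ I, l = x ∨ l = y ∨ l = w) : I.card ≤ 3 := by
  have h1 : I ⊆ {x, y, w} := by
    intro l hl
    simp only [mem_insert, mem_singleton]
    exact h l hl
  exact (card_le_card h1).trans card_le_three

/-- the sum of squares for four different exponents -/
theorem QAD_four {ι : Type} (hMON : MON_stmt) (I : Finset ι) (f : ι → ℤ[X]) (ε : ℤ) (hε : ε ^ 2 = 1)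
    (A B D E : ℕ) (h1 : B < A) (h2 : D < A) (h3 : E < A) (h4 : B < D) (h5 : E < B)
    (hf : ∀ i ∈ I, ∃ (c : ℤ) (e : ℕ), f i = C c * X ^ e) (hI : I.card ≤ 4)
    (hsum : ∑ i ∈ I, f i = C ε * (X ^ A - X ^ B - X ^ D + X ^ E)) :
    (∑ i ∈ I, f i) ^ 2 - ∑ i ∈ I, f i ^ 2 =
      2 * X ^ (A + E) + 2 * X ^ (B + D) - 2 * (X ^ (A + B) + X ^ (A + D) + X ^ (B + E) + X ^ (D + E)) := by
  have hε0 : ε ≠ 0 := by
    rintro rfl
    norm_num at hε
  set d : ℕ → ℤ := fun e => if e = A then ε else if e = E then ε else - ε with hd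
  have hT : ∀ g : ℕ → ℤ[X], ∑ e ∈ ({A, B, D, E} : Finset ℕ), g e = g A + (g B + (g D + g E)) := by
    intro g
    rw [sum_insert, sum_insert, sum_insert, sum_singleton]
    · simp only [mem_singleton]; omega
    · simp only [mem_insert, mem_singleton]; omega
    · simp only [mem_insert, mem_singleton]; omega
  have hcard : ({A, B, D, E} : Finset ℕ).card = 4 := by
    rw [card_insert_of_notMem, card_insert_of_notMem, card_insert_of_notMem, card_singleton]
    · simp only [mem_singleton]; omega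
    · simp only [mem_insert, mem_singleton]; omega
    · simp only [mem_insert, mem_singleton]; omega
  have dA : d A = ε := by show (if A = A then ε else _) = ε; rw [if_pos rfl]
  have dB : d B = - ε := by simp only [hd]; rw [if_neg (by omega), if_neg (by omega)]
  have dD : d D = - ε := by simp only [hd]; rw [if_neg (by omega), if_neg (by omega)]
  have dE : d E = ε := by
    show (if E = A then ε else if E = E then ε else _) = ε
    rw [if_neg (by omega), if_pos rfl]
  have h6 := hMON ι I f {A, B, D, E} d hf (by rw [hcard]; exact hI) (by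
    intro e _
    simp only [hd]
    split_ifs
    · exact hε0
    · exact hε0
    · exact neg_ne_zero.2 hε0) (by
    rw [hsum, hT, dA, dB, dD, dE, C_neg]
    ring)
  rw [h6, hsum, hT, dA, dB, dD, dE]
  have e1 : (C (ε ^ 2) : ℤ[X]) = 1 := by rw [hε, C_1]
  have e2 : (C ((- ε) ^ 2) : ℤ[X]) = 1 := by rw [neg_sq, hε, C_1]
  have e3 : (C ε : ℤ[X]) ^ 2 = 1 := by rw [← C_pow, e1]
  rw [mul_pow, e3, e1, e2]
  ring

/-- the sum of squares for three different exponents -/
theorem QAD_three {ι : Type} (hMON : MON_stmt) (I : Finset ι) (f : ι → ℤ[X]) (ε : ℤ) (hε : ε ^ 2 = 1)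
    (A B E : ℕ) (h1 : B < A) (h3 : E < A) (h5 : E < B)
    (hf : ∀ i ∈ I, ∃ (c : ℤ) (e : ℕ), f i = C c * X ^ e) (hI : I.card ≤ 3)
    (hsum : ∑ i ∈ I, f i = C ε * (X ^ A - X ^ B - X ^ B + X ^ E)) :
    (∑ i ∈ I, f i) ^ 2 - ∑ i ∈ I, f i ^ 2 =
      2 * X ^ (A + E) - 2 * (X ^ (A + B) + X ^ (A + B) + X ^ (B + E) + X ^ (B + E)) := by
  have hε0 : ε ≠ 0 := by
    rintro rfl
    norm_num at hε
  set d : ℕ → ℤ := fun e => if e = A then ε else if e = E then ε else - 2 * ε with hd
  have hT : ∀ g : ℕ → ℤ[X], ∑ e ∈ ({A, B, E} : Finset ℕ), g e = g A + (g B + g E) := by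
    intro g
    rw [sum_insert, sum_insert, sum_singleton]
    · simp only [mem_singleton]; omega
    · simp only [mem_insert, mem_singleton]; omega
  have hcard : ({A, B, E} : Finset ℕ).card = 3 := by
    rw [card_insert_of_notMem, card_insert_of_notMem, card_singleton]
    · simp only [mem_singleton]; omega
    · simp only [mem_insert, mem_singleton]; omega
  have dA : d A = ε := by show (if A = A then ε else _) = ε; rw [if_pos rfl]
  have dB : d B = - 2 * ε := by simp only [hd]; rw [if_neg (by omega), if_neg (by omega)]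
  have dE : d E = ε := by
    show (if E = A then ε else if E = E then ε else _) = ε
    rw [if_neg (by omega), if_pos rfl]
  have h6 := hMON ι I f {A, B, E} d hf (by rw [hcard]; exact hI) (by
    intro e _
    simp only [hd]
    split_ifs
    · exact hε0
    · exact hε0
    · exact mul_ne_zero (by norm_num) hε0) (by
    rw [hsum, hT, dA, dB, dE, C_mul, C_neg]
    have : (C (2 : ℤ) : ℤ[X]) = 2 := rfl
    rw [this]
    ring)
  rw [h6, hsum, hT, dA, dB, dE]
  have e1 : (C (ε ^ 2) : ℤ[X]) = 1 := by rw [hε, C_1]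
  have e2 : (C ((- 2 * ε) ^ 2) : ℤ[X]) = 4 := by
    rw [mul_pow, hε]
    rfl
  have e3 : (C ε : ℤ[X]) ^ 2 = 1 := by rw [← C_pow, e1]
  rw [mul_pow, e3, e1, e2]
  ring

theorem QAD (hLOV : LOV_stmt) (hCLS : CLS_stmt) (hLOW : LOW_stmt) (hMON : MON_stmt) : QAD_stmt := by
  classical
  intro s a b hs hsa hab hbs c j hj R hR k
  obtain ⟨ε, hε, hlow⟩ := hLOW s a b hs hsa hab hbs c j hj
  have hε2 : ε ^ 2 = 1 := by
    rcases hε with rfl | rfl <;> norm_num
  set I : Finset Lab := (addable b R).filter (fun l => yv s a b (move b R l) ≠ 0) with hI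
  have hz : ∀ l ∈ addable b R, l ∉ I → zz s a b R l = 0 := by
    intro l hl hlI
    have h1 : yv s a b (move b R l) = 0 := by
      by_contra h
      exact hlI (mem_filter.2 ⟨hl, h⟩)
    unfold zz
    rw [h1, mul_zero]
  have hs1 : ∑ l ∈ addable b R, zz s a b R l = ∑ l ∈ I, zz s a b R l :=
    (sum_subset (filter_subset _ _) hz).symm
  have hs2 : ∑ l ∈ addable b R, zz s a b R l ^ 2 = ∑ l ∈ I, zz s a b R l ^ 2 := by
    refine (sum_subset (filter_subset _ _) fun l hl hlI => ?_).symm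
    rw [hz l hl hlI]
    ring
  have hs3 : ∑ l ∈ addable b R, zz s a b R l = C ε * (X ^ (3 * b + 2 * s + 3 * (j + ix c)) -
      X ^ (2 * b + 2 * s - a + 3 * (j + ix c)) - X ^ (2 * b + a + 3 * (j + ix c)) +
      X ^ (b + 3 * (j + ix c))) := by
    rw [← hlow, ← hR, hLOV wl b (yv s a b) R (by omega)]
    rfl
  have hlab : ∀ l ∈ I, l = (c, 2 * b + j + (a + s - b)) ∨ l = (c, 2 * b + j - (b - s)) ∨
      l = (c, 2 * b + j - (b - a)) ∨ l = (c, b + j) := by
    intro l hl
    rw [hI, mem_filter] at hl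
    obtain ⟨c', j', hj', hR', hl'⟩ := hCLS s a b hs hsa hab hbs R l hl.1 hl.2
    rw [hR] at hR'
    have h1 := QAD_inj (by omega) (by omega) hR'
    simp only [Prod.mk.injEq] at h1
    obtain ⟨rfl, h2⟩ := h1
    have h3 : j' = j := by omega
    subst h3
    exact hl'
  have hmono : ∀ l ∈ I, ∃ (c : ℤ) (e : ℕ), zz s a b R l = C c * X ^ e := fun l _ => QAD_zz b hs hsa R l
  rw [hs1] at hs3
  rw [hs1, hs2]
  set J := j + ix c with hJ
  rcases eq_or_lt_of_le hsa with rfl | hlt
  · -- `s = a`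
    have hcard : I.card ≤ 3 := by
      apply QAD_card3 ((c, 2 * b + j + (s + s - b)) : Lab) (c, 2 * b + j - (b - s)) (c, b + j)
      intro l hl
      rcases hlab l hl with h | h | h | h
      · exact Or.inl h
      · exact Or.inr (Or.inl h)
      · exact Or.inr (Or.inl h)
      · exact Or.inr (Or.inr h)
    have e1 : 2 * b + 2 * s - s + 3 * J = 2 * b + s + 3 * J := by omega
    rw [e1] at hs3
    have h := QAD_three hMON I (fun l => zz s s b R l) ε hε2 (3 * b + 2 * s + 3 * J) (2 * b + s + 3 * J)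
      (b + 3 * J) (by omega) (by omega) (by omega) hmono hcard hs3
    rw [h]
    unfold ng
    rw [← hJ]
    have f1 : 5 * b + 4 * s - s + 6 * J = 3 * b + 2 * s + 3 * J + (2 * b + s + 3 * J) := by omega
    have f2 : 5 * b + 2 * s + s + 6 * J = 3 * b + 2 * s + 3 * J + (2 * b + s + 3 * J) := by omega
    have f3 : 3 * b + 2 * s - s + 6 * J = 2 * b + s + 3 * J + (b + 3 * J) := by omega
    have f4 : 3 * b + s + 6 * J = 2 * b + s + 3 * J + (b + 3 * J) := by omega
    rw [f1, f2, f3, f4]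
    have g1 : ∀ (P : ℤ[X]) (N : ℕ), 2 * X ^ N - 2 * P = 2 * X ^ N + (-2) * P := by
      intro P N
      ring
    rw [g1, coeff_add]
    have g2 : 0 ≤ ((2 : ℤ[X]) * X ^ (3 * b + 2 * s + 3 * J + (b + 3 * J))).coeff k := by
      have : (2 : ℤ[X]) = C 2 := rfl
      rw [this, coeff_C_mul, coeff_X_pow]
      split_ifs <;> norm_num
    linarith
  · have hcard : I.card ≤ 4 := QAD_card4 _ _ _ _ I hlab
    have h := QAD_four hMON I (fun l => zz s a b R l) ε hε2 (3 * b + 2 * s + 3 * J)
      (2 * b + 2 * s - a + 3 * J) (2 * b + a + 3 * J)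
      (b + 3 * J) (by omega) (by omega) (by omega) (by omega) (by omega) hmono hcard hs3
    rw [h]
    unfold ng
    rw [← hJ]
    have f1 : 5 * b + 4 * s - a + 6 * J = 3 * b + 2 * s + 3 * J + (2 * b + 2 * s - a + 3 * J) := by omega
    have f2 : 5 * b + 2 * s + a + 6 * J = 3 * b + 2 * s + 3 * J + (2 * b + a + 3 * J) := by omega
    have f3 : 3 * b + 2 * s - a + 6 * J = 2 * b + 2 * s - a + 3 * J + (b + 3 * J) := by omega
    have f4 : 3 * b + a + 6 * J = 2 * b + a + 3 * J + (b + 3 * J) := by omega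
    rw [f1, f2, f3, f4]
    have g1 : ∀ (P : ℤ[X]) (N M : ℕ), 2 * X ^ N + 2 * X ^ M - 2 * P = (2 * X ^ N + 2 * X ^ M) + (-2) * P := by
      intro P N M
      ring
    rw [g1, coeff_add, coeff_add]
    have g2 : ∀ N : ℕ, 0 ≤ ((2 : ℤ[X]) * X ^ N).coeff k := by
      intro N
      have : (2 : ℤ[X]) = C 2 := rfl
      rw [this, coeff_C_mul, coeff_X_pow]
      split_ifs <;> norm_num
    have g3 := g2 (3 * b + 2 * s + 3 * J + (b + 3 * J))
    have g4 := g2 (2 * b + 2 * s - a + 3 * J + (2 * b + a + 3 * J))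
    linarith

end Pool.Agent.TC
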